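import Pool.Agent.H62.UN.Targets

/-!
# The conic bundle surface is rational over an algebraically closed field (row RAT)
-/

set_option autoImplicit false

namespace Pool.Agent.H67.UNT

open Polynomial Pool.Agent.H17.UN Pool.Agent.H62.UN

theorem pf_RAT : F_RAT := by
  intro hSC0 hTAU k F _ _ _ _ _ P Q s y z h
  obtain ⟨y₀, z₀, h1, h2, h3⟩ := hSC0 k P Q h.dP h.dQ h.sep
  obtain ⟨τ, hτ⟩ := hTAU k F P Q s y z h y₀ z₀ h1 h2 h3
  refine ⟨s, τ, ?_, ?_⟩
  · have hs : Transcendental k s := h.ind.transcendental 0
    have hs' : AlgebraicIndependent k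
        (fun _ : Unit => (IntermediateField.AdjoinSimple.gen k s : ks k s)) := by
      rw [algebraicIndependent_unique_type_iff]
      have h4 : Transcendental k (algebraMap (ks k s) F (IntermediateField.AdjoinSimple.gen k s)) := by
        rw [IntermediateField.AdjoinSimple.algebraMap_gen]
        exact hs
      exact (transcendental_algebraMap_iff (algebraMap (ks k s) F).injective).1 h4
    have hτ' : AlgebraicIndependent (ks k s) (fun _ : Unit => τ) := by
      rw [algebraicIndependent_unique_type_iff]
      exact hτ.tr
    have h5 := hs'.sumElim_comp hτ'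
    have h6 := h5.comp (![Sum.inr (), Sum.inl ()] : Fin 2 → Unit ⊕ Unit) (by
      intro i j hij
      fin_cases i <;> fin_cases j
      · rfl
      · exact absurd hij (by simp)
      · exact absurd hij (by simp)
      · rfl)
    have h7 : (![s, τ] : Fin 2 → F) = Sum.elim (fun _ : Unit => τ)
        (algebraMap (ks k s) F ∘ fun _ : Unit => IntermediateField.AdjoinSimple.gen k s) ∘
          (![Sum.inr (), Sum.inl ()] : Fin 2 → Unit ⊕ Unit) := by
      funext i
      fin_cases i
      · exact (IntermediateField.AdjoinSimple.algebraMap_gen k s).symm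
      · rfl
    rw [h7]
    exact h6
  · have h4 : (IntermediateField.adjoin (ks k s) {τ}).restrictScalars k =
        IntermediateField.adjoin k ({s} ∪ {τ}) :=
      IntermediateField.adjoin_adjoin_left k {s} {τ}
    rw [hτ.gen, IntermediateField.restrictScalars_top, Set.singleton_union] at h4
    exact h4.symm

end Pool.Agent.H67.UNT
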